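import Pool.Agent.Lib.MP_34b615_gt.Final

open Pool.Agent.Lib.MP_34b615_gt

/-- Moebius invariance of the weighted value (m odd) or residue (m even) at z = -2m. -/
theorem Pool.Agent.Results.MP_34b615_gt.MoebiusInvariant.result :
    ∀ (m n : ℕ), 1 ≤ m → ∀ (M : Set (E n)) (e : E n → Fin m → E n),
      IsOrientedClosedSubmanifold m M e →
      ∀ T : OnePoint (E n) → OnePoint (E n), IsMoebius T →
        (∀ x ∈ M, T (x : OnePoint (E n)) ≠ OnePoint.infty) →
        (∃ e' : E n → Fin m → E n, IsTransported m M e (finitePart T) e') ∧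
        ∀ e' : E n → Fin m → E n, IsTransported m M e (finitePart T) e' →
          (∃ B : ℂ → ℂ, IsContinuation m M e B) ∧
          (∃ B' : ℂ → ℂ, IsContinuation m (finitePart T '' M) e' B') ∧
          ∀ B B' : ℂ → ℂ, IsContinuation m M e B →
            IsContinuation m (finitePart T '' M) e' B' →
            ∃ W : ℂ, HasW m B W ∧ HasW m B' W :=
  fun _ _ hm _ _ hM _ hT hTM => moebius_invariance hm hM hT hTM
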